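import Mathlib
import Pool.Agent.H55.G.R_seed8.H397R2.Reg
import Pool.Agent.H55.G.R_seed8.H397R2.Loc

namespace Pool.Agent.H397R2

open Pool.Agent.Helper605.CP Filter Topology

/-- residues `s` modulo `2^k` for which `s` and `s+1` have not coalesced after `k` steps -/
def Bad (k : ℕ) : Finset ℕ := (Finset.range (2 ^ k)).filter (fun s => orb k s ≠ orb k (s + 1))

lemma bad_lt {k s : ℕ} (hs : s ∈ Bad k) : s < 2 ^ k := by
  simp only [Bad, Finset.mem_filter, Finset.mem_range] at hs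
  exact hs.1

lemma bad_card (k : ℕ) : ((Bad k).card : ℝ) = 2 ^ k * u k ((0, 0), (0, 1)) := by
  have h := sum_u k 0
  rw [add_zero] at h
  rw [← h, Bad, Finset.card_filter]
  push_cast
  apply Finset.sum_congr rfl
  intro n _
  simp only [u]
  by_cases hn : orb k n = orb k (n + 1)
  · simp [hn]
  · simp [hn]

lemma exists_bad_small {ε : ℝ} (hε : 0 < ε) : ∃ k, 1 ≤ k ∧ ((Bad k).card : ℝ) < ε * 2 ^ k := by
  obtain ⟨k, hk1, hk2⟩ := u_small ((0, 0), (0, 1)) ε hε
  refine ⟨k, hk1, ?_⟩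
  rw [bad_card, mul_comm]
  exact mul_lt_mul_of_pos_right hk2 (by positivity)

lemma good_eq {α : Type*} {c : ℕ → α} (h : CInv c) {k n : ℕ} (hn : n % 2 ^ k ∉ Bad k) :
    c n = c (n + 1) := by
  have hlt : n % 2 ^ k < 2 ^ k := Nat.mod_lt _ (by positivity)
  have h1 : orb k (n % 2 ^ k) = orb k (n % 2 ^ k + 1) := by
    by_contra hcon
    exact hn (by simp only [Bad, Finset.mem_filter, Finset.mem_range]; exact ⟨hlt, hcon⟩)
  have h2 : n = n % 2 ^ k + 2 ^ k * (n / 2 ^ k) := (Nat.mod_add_div _ _).symm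
  have h3 : orb k n = orb k (n + 1) := by
    have e1 := orb_add k (n % 2 ^ k) (n / 2 ^ k)
    have e2 := orb_add k (n % 2 ^ k + 1) (n / 2 ^ k)
    rw [show n % 2 ^ k + 1 + 2 ^ k * (n / 2 ^ k) = n + 1 by omega, ← h1] at e2
    rw [← h2] at e1
    rw [e1, e2]
  rw [← h.orb k n, h3, h.orb]

/-- counting integers below `N` in a set of residues -/
lemma card_filter_mod_le {M : ℕ} (B : Finset ℕ) (N : ℕ) :
    ((Finset.range N).filter (fun n => n % M ∈ B)).card ≤ (N / M + 1) * B.card := by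
  classical
  have h : (Finset.range N).filter (fun n => n % M ∈ B) ⊆
      ((Finset.range (N / M + 1)) ×ˢ B).image (fun p => M * p.1 + p.2) := by
    intro n hn
    rw [Finset.mem_filter, Finset.mem_range] at hn
    rw [Finset.mem_image]
    refine ⟨(n / M, n % M), ?_, Nat.div_add_mod n M⟩
    rw [Finset.mem_product, Finset.mem_range]
    exact ⟨Nat.lt_succ_of_le (Nat.div_le_div_right hn.1.le), hn.2⟩
  refine (Finset.card_le_card h).trans (Finset.card_image_le.trans ?_)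
  rw [Finset.card_product, Finset.card_range]

/-- variation over a dyadic block -/
noncomputable def Vr (c : ℕ → ℂ) (j : ℕ) : ℝ :=
  ∑ n ∈ Finset.Ico (2 ^ j) (2 ^ (j + 1)), ‖c (n + 1) - c n‖

lemma sum_Ico_two_mul (g : ℕ → ℝ) (a b : ℕ) (hab : a ≤ b) :
    ∑ n ∈ Finset.Ico (2 * a) (2 * b), g n = ∑ n ∈ Finset.Ico a b, (g (2 * n) + g (2 * n + 1)) := by
  induction b, hab using Nat.le_induction with
  | base => simp
  | succ b hb ih =>
    rw [Finset.sum_Ico_succ_top hb, ← ih, show 2 * (b + 1) = 2 * b + 1 + 1 by ring,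
      Finset.sum_Ico_succ_top (by omega), Finset.sum_Ico_succ_top (by omega)]
    ring

lemma Vr_mono_succ {c : ℕ → ℂ} (h : CInv c) (j : ℕ) : Vr c j ≤ Vr c (j + 1) := by
  unfold Vr
  rw [show 2 ^ (j + 1 + 1) = 2 * 2 ^ (j + 1) by ring]
  conv_rhs => rw [show (2 : ℕ) ^ (j + 1) = 2 * 2 ^ j by ring]
  rw [sum_Ico_two_mul _ _ _ (by omega)]
  rw [show 2 * 2 ^ j = 2 ^ (j + 1) by ring]
  apply Finset.sum_le_sum
  intro n _
  have e1 : c (n + 1) = c (2 * n + 1 + 1) := by
    rw [← h.even (n + 1)]; rfl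
  have e2 : c n = c (2 * n) := (h.even n).symm
  rw [e1, e2]
  calc ‖c (2 * n + 1 + 1) - c (2 * n)‖ =
      ‖(c (2 * n + 1) - c (2 * n)) + (c (2 * n + 1 + 1) - c (2 * n + 1))‖ := by
        congr 1; ring
    _ ≤ _ := norm_add_le _ _

lemma Vr_mono {c : ℕ → ℂ} (h : CInv c) {i j : ℕ} (hij : i ≤ j) : Vr c i ≤ Vr c j := by
  induction j, hij using Nat.le_induction with
  | base => exact le_rfl
  | succ j _ ih => exact ih.trans (Vr_mono_succ h j)

lemma const_of_Vr_zero {c : ℕ → ℂ} (h0 : ∀ j, Vr c j = 0) : ∀ n, 1 ≤ n → c n = c 1 := by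
  have h1 : ∀ n, 1 ≤ n → c (n + 1) = c n := by
    intro n hn
    have h2 := h0 (Nat.log 2 n)
    unfold Vr at h2
    rw [Finset.sum_eq_zero_iff_of_nonneg (fun _ _ => norm_nonneg _)] at h2
    have h3 := h2 n (by
      rw [Finset.mem_Ico]
      exact ⟨Nat.pow_log_le_self 2 (by omega), Nat.lt_pow_succ_log_self (by norm_num) n⟩)
    rw [norm_eq_zero, sub_eq_zero] at h3
    exact h3
  intro n hn
  induction n, hn using Nat.le_induction with
  | base => rfl
  | succ n hn ih => rw [h1 n hn, ih]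

/-- **Window lemma.** -/
lemma const_of_window {c : ℕ → ℂ} (h : CInv c) {C : ℝ}
    (H : ∀ N0 : ℕ, ∃ N, N0 ≤ N ∧
      ∑ n ∈ Finset.range N, (((n : ℝ) + 1) * ‖c (n + 1) - c n‖) ^ 2 ≤ C * N) :
    ∀ n, 1 ≤ n → c n = c 1 := by
  classical
  apply const_of_Vr_zero
  intro j0
  have hC : 0 ≤ C := by
    obtain ⟨N, hN1, hN⟩ := H 1
    have h1 : 0 ≤ ∑ n ∈ Finset.range N, (((n : ℝ) + 1) * ‖c (n + 1) - c n‖) ^ 2 := by positivity
    have h2 : (0 : ℝ) < N := by exact_mod_cast hN1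
    have h3 : 0 ≤ C * N := h1.trans hN
    exact nonneg_of_mul_nonneg_left h3 h2
  have hV0 : 0 ≤ Vr c j0 := Finset.sum_nonneg (fun _ _ => norm_nonneg _)
  have key : ∀ ε : ℝ, 0 < ε → Vr c j0 ^ 2 ≤ 32 * C * ε := by
    intro ε hε
    obtain ⟨k, _, hk⟩ := exists_bad_small hε
    obtain ⟨N, hN1, hN⟩ := H (2 ^ (j0 + 2) + 2 ^ k)
    have hN0 : 0 < N := lt_of_lt_of_le (by positivity) hN1
    have hNpos : (0 : ℝ) < N := by exact_mod_cast hN0
    have hp1 : 0 < 2 ^ (j0 + 2) := by positivity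
    have hp2 : 0 < 2 ^ k := by positivity
    -- the dyadic block
    set j := Nat.log 2 N - 1 with hj
    have hlog : j0 + 2 ≤ Nat.log 2 N := by
      apply (Nat.le_log_iff_pow_le (by norm_num) (by omega)).mpr
      omega
    have hj1 : 2 ^ (j + 1) ≤ N := by
      rw [show j + 1 = Nat.log 2 N by omega]
      exact Nat.pow_log_le_self 2 (by omega)
    have hj2 : N < 2 ^ (j + 2) := by
      rw [show j + 2 = Nat.log 2 N + 1 by omega]
      exact Nat.lt_pow_succ_log_self (by norm_num) N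
    have hjj : j0 ≤ j := by omega
    have hsub : Finset.Ico (2 ^ j) (2 ^ (j + 1)) ⊆ Finset.range N := by
      intro n hn
      rw [Finset.mem_Ico] at hn
      rw [Finset.mem_range]; omega
    have h1 : Vr c j0 ≤ Vr c j := Vr_mono h hjj
    -- Cauchy-Schwarz
    have h2 : Vr c j ^ 2 ≤ (∑ n ∈ Finset.range N, (if c (n + 1) = c n then (0 : ℝ) else 1) ^ 2) *
        ∑ n ∈ Finset.Ico (2 ^ j) (2 ^ (j + 1)), ‖c (n + 1) - c n‖ ^ 2 := by
      have h3 : Vr c j = ∑ n ∈ Finset.Ico (2 ^ j) (2 ^ (j + 1)),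
          (if c (n + 1) = c n then (0 : ℝ) else 1) * ‖c (n + 1) - c n‖ := by
        unfold Vr
        apply Finset.sum_congr rfl
        intro n _
        split_ifs with hcn
        · rw [hcn]; simp
        · rw [one_mul]
      rw [h3]
      refine (Finset.sum_mul_sq_le_sq_mul_sq _ _ _).trans ?_
      apply mul_le_mul_of_nonneg_right _ (by positivity)
      exact Finset.sum_le_sum_of_subset_of_nonneg hsub (fun _ _ _ => sq_nonneg _)
    have h4 : ∑ n ∈ Finset.range N, (if c (n + 1) = c n then (0 : ℝ) else 1) ^ 2 ≤ 2 * ε * N := by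
      have h5 : ∑ n ∈ Finset.range N, (if c (n + 1) = c n then (0 : ℝ) else 1) ^ 2 ≤
          ∑ n ∈ Finset.range N, (if n % 2 ^ k ∈ Bad k then (1 : ℝ) else 0) := by
        apply Finset.sum_le_sum
        intro n _
        by_cases hb : n % 2 ^ k ∈ Bad k
        · rw [if_pos hb]; split_ifs <;> norm_num
        · rw [if_neg hb, if_pos (good_eq h hb).symm]; norm_num
      refine h5.trans ?_
      rw [← Finset.sum_filter, Finset.sum_const, nsmul_eq_mul, mul_one]
      have h6 := card_filter_mod_le (M := 2 ^ k) (Bad k) N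
      have h7 : N / 2 ^ k + 1 ≤ 2 * (N / 2 ^ k) := by
        have : 1 ≤ N / 2 ^ k := (Nat.one_le_div_iff (by positivity)).mpr (by omega)
        omega
      have h8 : ((N / 2 ^ k : ℕ) : ℝ) ≤ N / 2 ^ k := by
        have := @Nat.cast_div_le ℝ _ _ _ N (2 ^ k)
        push_cast at this
        exact this
      calc (((Finset.range N).filter (fun n => n % 2 ^ k ∈ Bad k)).card : ℝ)
          ≤ (((N / 2 ^ k + 1) * (Bad k).card : ℕ) : ℝ) := by exact_mod_cast h6
        _ = ((N / 2 ^ k + 1 : ℕ) : ℝ) * (Bad k).card := by push_cast; ring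
        _ ≤ (2 * (N / 2 ^ k : ℕ) : ℝ) * (Bad k).card := by
            apply mul_le_mul_of_nonneg_right _ (by positivity)
            exact_mod_cast h7
        _ ≤ (2 * (N / 2 ^ k)) * (ε * 2 ^ k) := by
            apply mul_le_mul _ hk.le (by positivity) (by positivity)
            linarith
        _ = 2 * ε * N := by field_simp
    have h9 : ∑ n ∈ Finset.Ico (2 ^ j) (2 ^ (j + 1)), ‖c (n + 1) - c n‖ ^ 2 ≤ 16 * C / N := by
      have h10 : ∑ n ∈ Finset.Ico (2 ^ j) (2 ^ (j + 1)), ‖c (n + 1) - c n‖ ^ 2 ≤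
          ∑ n ∈ (Finset.Ico (2 ^ j) (2 ^ (j + 1)) : Finset ℕ), 16 / (N : ℝ) ^ 2 *
            (((n : ℝ) + 1) * ‖c (n + 1) - c n‖) ^ 2 := by
        apply Finset.sum_le_sum
        intro n hn
        rw [Finset.mem_Ico] at hn
        have h11 : N ≤ 4 * (n + 1) := by
          have : 2 ^ (j + 2) = 4 * 2 ^ j := by ring
          omega
        have h12 : (N : ℝ) ≤ 4 * ((n : ℝ) + 1) := by exact_mod_cast h11
        have h13 : 1 ≤ 16 / (N : ℝ) ^ 2 * ((n : ℝ) + 1) ^ 2 := by
          rw [div_mul_eq_mul_div, le_div_iff₀ (by positivity)]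
          nlinarith
        calc ‖c (n + 1) - c n‖ ^ 2 = 1 * ‖c (n + 1) - c n‖ ^ 2 := by ring
          _ ≤ (16 / (N : ℝ) ^ 2 * ((n : ℝ) + 1) ^ 2) * ‖c (n + 1) - c n‖ ^ 2 :=
            mul_le_mul_of_nonneg_right h13 (by positivity)
          _ = _ := by ring
      refine h10.trans ?_
      rw [← Finset.mul_sum]
      calc 16 / (N : ℝ) ^ 2 * ∑ n ∈ (Finset.Ico (2 ^ j) (2 ^ (j + 1)) : Finset ℕ),
            (((n : ℝ) + 1) * ‖c (n + 1) - c n‖) ^ 2
          ≤ 16 / (N : ℝ) ^ 2 * ∑ n ∈ Finset.range N, (((n : ℝ) + 1) * ‖c (n + 1) - c n‖) ^ 2 := by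
            apply mul_le_mul_of_nonneg_left _ (by positivity)
            exact Finset.sum_le_sum_of_subset_of_nonneg hsub (fun _ _ _ => sq_nonneg _)
        _ ≤ 16 / (N : ℝ) ^ 2 * (C * N) := mul_le_mul_of_nonneg_left hN (by positivity)
        _ = 16 * C / N := by field_simp
    calc Vr c j0 ^ 2 ≤ Vr c j ^ 2 := pow_le_pow_left₀ hV0 h1 2
      _ ≤ _ := h2
      _ ≤ (2 * ε * N) * (16 * C / N) := mul_le_mul h4 h9 (by positivity) (by positivity)
      _ = 32 * C * ε := by field_simp; ring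
  have h14 : Vr c j0 ^ 2 ≤ 0 := by
    apply le_of_forall_pos_le_add
    intro δ hδ
    have := key (δ / (32 * C + 1)) (by positivity)
    refine this.trans ?_
    rw [zero_add, ← mul_div_assoc, div_le_iff₀ (by positivity)]
    nlinarith
  exact pow_eq_zero_iff (n := 2) (by norm_num) |>.mp (le_antisymm h14 (sq_nonneg _))

end Pool.Agent.H397R2
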