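import Mathlib
import Pool.Agent.H55.G.R_seed8.H397R2.BM

namespace Pool.Agent.H397R2

open Pool.Agent.Helper605.CP Filter Topology

lemma hasSum_F2 {h : ℂ → ℂ} (hd : DifferentiableOn ℂ h (Metric.ball 0 1)) {z : ℂ}
    (hz : ‖z‖ < 1) (hz0 : z ≠ 0) : HasSum (fun n => F2 (tc h) n * z ^ n)
      (((1 - z) ^ 2 * deriv h z - tc h 1) / z) := by
  set b : ℕ → ℂ := fun n => ((n : ℂ) + 1) * tc h (n + 1) with hb
  have s1 : HasSum (fun n => b n * z ^ n) (deriv h z) := hasSum_deriv hd hz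
  have s2 : HasSum (fun n => b (n + 1) * z ^ (n + 1)) (deriv h z - tc h 1) := by
    have := (hasSum_nat_add_iff' 1).mpr s1
    simp only [Finset.range_one, Finset.sum_singleton, pow_zero, mul_one] at this
    rw [show b 0 = tc h 1 by simp [hb]] at this
    exact this
  have s3 : HasSum (fun n : ℕ => (n : ℂ) * tc h n * z ^ n) (z * deriv h z) := by
    have h1 : HasSum (fun n : ℕ => (((n + 1 : ℕ) : ℂ)) * tc h (n + 1) * z ^ (n + 1))
        (z * deriv h z) := by
      refine hs_congr (s1.mul_left z) (fun n => ?_)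
      simp only [hb]
      push_cast; ring
    have h2 := (hasSum_nat_add_iff (f := fun n : ℕ => (n : ℂ) * tc h n * z ^ n) 1).mp h1
    simpa using h2
  have s4 := (s2.sub (s1.mul_left (2 * z))).add (s3.mul_left z)
  have s5 := s4.mul_left z⁻¹
  have e : z⁻¹ * (deriv h z - tc h 1 - 2 * z * deriv h z + z * (z * deriv h z)) =
      ((1 - z) ^ 2 * deriv h z - tc h 1) / z := by
    field_simp; ring
  rw [e] at s5
  refine hs_congr s5 (fun n => ?_)
  simp only [F2, hb]
  push_cast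
  field_simp
  ring

lemma summable_F2 {h : ℂ → ℂ} (hd : DifferentiableOn ℂ h (Metric.ball 0 1)) {r : ℝ} (hr0 : 0 ≤ r)
    (hr1 : r < 1) : Summable fun n => ‖F2 (tc h) n‖ * r ^ n := by
  have h0 : (0 : ℝ) ≤ (r + 1) / 2 := by linarith
  have h1 := (hasSum_F2 hd (z := cp ((r + 1) / 2) 0) (by rw [norm_cp h0]; linarith) (by
    intro hz
    have := norm_cp h0 0
    rw [hz, norm_zero] at this
    linarith)).summable.norm
  simp only [norm_term h0] at h1
  refine Summable.of_nonneg_of_le (fun n => by positivity) (fun n => ?_) h1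
  apply mul_le_mul_of_nonneg_left _ (norm_nonneg _)
  exact pow_le_pow_left₀ hr0 (by linarith) n

/-- **Boundary theorem for the Berg-Meinardus equation.** -/
theorem bm_boundary {h : ℂ → ℂ} (hd : DifferentiableOn ℂ h (Metric.ball 0 1))
    (hfe : ∀ z : ℂ, ‖z‖ < 1 → 3 * z * (h (z ^ 3) - h (z ^ 6)) =
      h (z ^ 2) + om * h (om * z ^ 2) + om ^ 2 * h (om ^ 2 * z ^ 2))
    {α β C : ℝ} (hαβ : α < β)
    (H : ∃ᶠ r in 𝓝[<] (1 : ℝ), (1 - r) * ∫ θ in α..β, ‖deriv h (cp r θ)‖ ^ 2 ≤ C) :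
    ∃ c₀ c₁ : ℂ, ∀ z : ℂ, ‖z‖ < 1 → h z = c₀ + c₁ * (z / (1 - z)) := by
  have hc : CInv (tc h) := cinv_of_bm (fun z hz => hasSum_tc hd hz) hfe
  have hconst : ∀ n, 1 ≤ n → tc h n = tc h 1 := by
    refine const_of_local_L2 hc (C := 128 * C + 8 * ‖tc h 1‖ ^ 2 * (β - α)) hαβ
      (fun r hr0 hr1 => summable_F2 hd hr0 hr1) ?_
    have h1 : ∀ᶠ r in 𝓝[<] (1 : ℝ), 1 / 2 < r ∧ r < 1 := by
      apply Filter.Eventually.and
      · exact nhdsWithin_le_nhds (lt_mem_nhds (by norm_num))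
      · exact self_mem_nhdsWithin
    refine (H.and_eventually h1).mono ?_
    rintro r ⟨hr, hr0, hr1⟩
    have hr0' : 0 ≤ r := by linarith
    have hcpn : ∀ θ, ‖cp r θ‖ = r := norm_cp hr0'
    have hne : ∀ θ, cp r θ ≠ 0 := fun θ h0 => by
      have := hcpn θ
      rw [h0, norm_zero] at this; linarith
    have hser : ∀ θ, ser (F2 (tc h)) r θ =
        ((1 - cp r θ) ^ 2 * deriv h (cp r θ) - tc h 1) / cp r θ := fun θ =>
      (hasSum_ser hr0' (summable_F2 hd hr0' hr1) θ).unique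
        (hasSum_F2 hd (by rw [hcpn]; exact hr1) (hne θ))
    have hcont : Continuous fun θ => deriv h (cp r θ) := by
      have h2 : ContinuousOn (deriv h) (Metric.ball 0 1) :=
        (hd.deriv Metric.isOpen_ball).continuousOn
      refine h2.comp_continuous (continuous_cp r) (fun θ => ?_)
      rw [Metric.mem_ball, dist_zero_right, hcpn]; exact hr1
    have hpt : ∀ θ, ‖ser (F2 (tc h)) r θ‖ ^ 2 ≤
        128 * ‖deriv h (cp r θ)‖ ^ 2 + 8 * ‖tc h 1‖ ^ 2 := by
      intro θ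
      rw [hser, norm_div, hcpn, div_pow, div_le_iff₀ (by positivity)]
      have h3 : ‖(1 - cp r θ) ^ 2 * deriv h (cp r θ) - tc h 1‖ ≤
          4 * ‖deriv h (cp r θ)‖ + ‖tc h 1‖ := by
        refine (norm_sub_le _ _).trans ?_
        rw [norm_mul, norm_pow]
        have h4 : ‖1 - cp r θ‖ ≤ 2 := by
          refine (norm_sub_le _ _).trans ?_
          rw [norm_one, hcpn]; linarith
        have h5 : ‖1 - cp r θ‖ ^ 2 ≤ 4 := by
          nlinarith [norm_nonneg (1 - cp r θ)]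
        have := norm_nonneg (deriv h (cp r θ))
        nlinarith
      have h6 : 0 ≤ ‖(1 - cp r θ) ^ 2 * deriv h (cp r θ) - tc h 1‖ := norm_nonneg _
      have h7 : ‖(1 - cp r θ) ^ 2 * deriv h (cp r θ) - tc h 1‖ ^ 2 ≤
          32 * ‖deriv h (cp r θ)‖ ^ 2 + 2 * ‖tc h 1‖ ^ 2 := by
        have h8 := norm_nonneg (deriv h (cp r θ))
        have h9 := norm_nonneg (tc h 1)
        nlinarith [sq_nonneg (4 * ‖deriv h (cp r θ)‖ - ‖tc h 1‖)]
      have h10 : 1 / 4 ≤ r ^ 2 := by nlinarith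
      have h11 : 0 ≤ 32 * ‖deriv h (cp r θ)‖ ^ 2 + 2 * ‖tc h 1‖ ^ 2 := by positivity
      nlinarith
    have hint : ∫ θ in α..β, ‖ser (F2 (tc h)) r θ‖ ^ 2 ≤
        128 * (∫ θ in α..β, ‖deriv h (cp r θ)‖ ^ 2) + 8 * ‖tc h 1‖ ^ 2 * (β - α) := by
      have h12 : ∫ θ in α..β, (128 * ‖deriv h (cp r θ)‖ ^ 2 + 8 * ‖tc h 1‖ ^ 2) =
          128 * (∫ θ in α..β, ‖deriv h (cp r θ)‖ ^ 2) + 8 * ‖tc h 1‖ ^ 2 * (β - α) := by
        rw [intervalIntegral.integral_add, intervalIntegral.integral_const_mul,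
          intervalIntegral.integral_const]
        · simp only [smul_eq_mul]; ring
        · apply Continuous.intervalIntegrable; fun_prop
        · apply Continuous.intervalIntegrable; fun_prop
      rw [← h12]
      apply intervalIntegral.integral_mono hαβ.le
      · apply Continuous.intervalIntegrable
        have := continuous_ser hr0' (summable_F2 hd hr0' hr1)
        fun_prop
      · apply Continuous.intervalIntegrable; fun_prop
      · exact hpt
    have h13 : (1 - r) * ∫ θ in α..β, ‖ser (F2 (tc h)) r θ‖ ^ 2 ≤ (1 - r) *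
        (128 * (∫ θ in α..β, ‖deriv h (cp r θ)‖ ^ 2) + 8 * ‖tc h 1‖ ^ 2 * (β - α)) :=
      mul_le_mul_of_nonneg_left hint (by linarith)
    refine h13.trans ?_
    have h14 : (1 - r) * (8 * ‖tc h 1‖ ^ 2 * (β - α)) ≤ 1 * (8 * ‖tc h 1‖ ^ 2 * (β - α)) := by
      apply mul_le_mul_of_nonneg_right (by linarith)
      have : 0 ≤ β - α := by linarith
      positivity
    nlinarith
  refine ⟨tc h 0, tc h 1, fun z hz => ?_⟩
  have s1 := hasSum_tc hd hz
  have s2 : HasSum (fun n : ℕ => tc h 1 * z * z ^ n) (tc h 1 * z * (1 - z)⁻¹) :=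
    (hasSum_geometric_of_norm_lt_one hz).mul_left _
  have s3 : HasSum (fun n : ℕ => tc h (n + 1) * z ^ (n + 1)) (tc h 1 * z * (1 - z)⁻¹) := by
    refine hs_congr s2 (fun n => ?_)
    rw [hconst (n + 1) (by omega), pow_succ]; ring
  have s4 := (hasSum_nat_add_iff (f := fun n : ℕ => tc h n * z ^ n) 1).mp s3
  rw [s1.unique s4]
  simp only [Finset.range_one, Finset.sum_singleton, pow_zero, mul_one]
  rw [div_eq_mul_inv]; ring

end Pool.Agent.H397R2
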