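import Mathlib
import Pool.Agent.H55.G.R_seed8.H397R2.BM2

namespace Pool.Agent.H397R2

open Pool.Agent.Helper605.CP Filter Topology

/-- number of jumps of `c` in the `j`-th dyadic block -/
noncomputable def W (c : ℕ → ℂ) (j : ℕ) : ℕ := by
  classical
  exact ((Finset.Ico (2 ^ j) (2 ^ (j + 1))).filter (fun n => c (n + 1) ≠ c n)).card

/-- If infinitely many dyadic blocks contain at most `V` jumps then `c` is constant. -/
lemma const_of_few_jumps {c : ℕ → ℂ} (h : CInv c) {V : ℕ} (H : ∀ J, ∃ j, J ≤ j ∧ W c j ≤ V) :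
    ∀ n, 1 ≤ n → c n = c 1 := by
  classical
  refine const_of_long_runs h (m0 := 4 * (V + 1)) (by omega) (fun X => ?_)
  obtain ⟨j, hj, hW⟩ := H X
  set l := 2 ^ j / (V + 1) with hl
  have hl1 : (V + 1) * l ≤ 2 ^ j := Nat.mul_div_le _ _
  have hl2 : 2 ^ j < (V + 1) * (l + 1) := by
    have := Nat.lt_mul_div_succ (2 ^ j) (show 0 < V + 1 by omega)
    rwa [← hl] at this
  -- an interval without jumps
  obtain ⟨i, hi, hno⟩ : ∃ i < V + 1, ∀ n, 2 ^ j + i * l ≤ n → n < 2 ^ j + (i + 1) * l →
      c (n + 1) = c n := by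
    by_contra hcon
    push Not at hcon
    have hch : ∀ i : Fin (V + 1), ∃ n, 2 ^ j + i.1 * l ≤ n ∧ n < 2 ^ j + (i.1 + 1) * l ∧
        c (n + 1) ≠ c n := fun i => hcon i.1 i.2
    choose g hg1 hg2 hg3 using hch
    have hinj : Function.Injective g := by
      intro a b hab
      by_contra hne
      rcases lt_or_gt_of_ne (Fin.val_ne_of_ne hne) with hlt | hlt
      · have h1 := hg2 a
        have h2 := hg1 b
        rw [hab] at h1
        have h3 : (a.1 + 1) * l ≤ b.1 * l := Nat.mul_le_mul_right _ hlt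
        omega
      · have h1 := hg2 b
        have h2 := hg1 a
        rw [hab] at h2
        have h3 : (b.1 + 1) * l ≤ a.1 * l := Nat.mul_le_mul_right _ hlt
        omega
    have hcard : (Finset.univ : Finset (Fin (V + 1))).card ≤
        ((Finset.Ico (2 ^ j) (2 ^ (j + 1))).filter (fun n => c (n + 1) ≠ c n)).card := by
      apply Finset.card_le_card_of_injOn g
      · intro i _
        simp only [Finset.coe_filter, Finset.mem_Ico, Set.mem_ofPred_eq]
        refine ⟨⟨by have := hg1 i; omega, ?_⟩, hg3 i⟩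
        have h1 := hg2 i
        have h2 : (i.1 + 1) * l ≤ (V + 1) * l := Nat.mul_le_mul_right _ i.2
        have h3 : 2 ^ (j + 1) = 2 ^ j + 2 ^ j := by ring
        omega
      · exact hinj.injOn
    rw [Finset.card_univ, Fintype.card_fin] at hcard
    have : W c j = ((Finset.Ico (2 ^ j) (2 ^ (j + 1))).filter (fun n => c (n + 1) ≠ c n)).card := by
      unfold W; congr
    omega
  refine ⟨2 ^ j + i * l, ?_, fun y hy1 hy2 => ?_⟩
  · have : X < 2 ^ X := Nat.lt_two_pow_self
    have h2 : 2 ^ X ≤ 2 ^ j := Nat.pow_le_pow_right (by norm_num) hj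
    omega
  · -- constant on the interval
    have hconst : ∀ d, d ≤ l → c (2 ^ j + i * l + d) = c (2 ^ j + i * l) := by
      intro d
      induction d with
      | zero => intro _; rfl
      | succ d ih =>
        intro hd
        rw [← ih (by omega), ← Nat.add_assoc]
        apply hno
        · omega
        · rw [add_mul, one_mul]; omega
    obtain ⟨d, rfl⟩ : ∃ d, y = 2 ^ j + i * l + d := ⟨y - (2 ^ j + i * l), by omega⟩
    apply hconst
    by_contra hcon
    push Not at hcon
    have h3 : 4 * (V + 1) * d < 2 ^ j + i * l := by nlinarith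
    have h4 : (V + 1) * (l + 1) ≤ (V + 1) * d := Nat.mul_le_mul_left _ hcon
    have h5 : i * l ≤ (V + 1) * l := Nat.mul_le_mul_right _ hi.le
    have h6 : 4 * (V + 1) * d = 4 * ((V + 1) * d) := by ring
    omega

lemma sum_W_le {c : ℕ → ℂ} (J L : ℕ) :
    ∑ j ∈ Finset.Ico J L, W c j ≤
      (by classical exact ((Finset.range (2 ^ L)).filter (fun n => c (n + 1) ≠ c n)).card) := by
  classical
  have h1 : ∀ j, W c j = ((Finset.Ico (2 ^ j) (2 ^ (j + 1))).filter
      (fun n => c (n + 1) ≠ c n)).card := by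
    intro j; unfold W; congr
  simp_rw [h1]
  rw [← Finset.card_biUnion]
  · have : (Finset.Ico J L).biUnion (fun j => (Finset.Ico (2 ^ j) (2 ^ (j + 1))).filter
        (fun n => c (n + 1) ≠ c n)) ⊆
        (Finset.range (2 ^ L)).filter (fun n => c (n + 1) ≠ c n) := by
      intro n hn
      rw [Finset.mem_biUnion] at hn
      obtain ⟨j, hj, hn⟩ := hn
      rw [Finset.mem_Ico] at hj
      rw [Finset.mem_filter, Finset.mem_Ico] at hn
      rw [Finset.mem_filter, Finset.mem_range]
      have : 2 ^ (j + 1) ≤ 2 ^ L := Nat.pow_le_pow_right (by norm_num) hj.2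
      exact ⟨by omega, hn.2⟩
    refine (Finset.card_le_card this).trans (le_of_eq ?_)
    congr
  · intro i _ j _ hij
    rw [Function.onFun, Finset.disjoint_left]
    intro n hn1 hn2
    rw [Finset.mem_filter, Finset.mem_Ico] at hn1 hn2
    rcases lt_or_gt_of_ne hij with h | h
    · have : 2 ^ (i + 1) ≤ 2 ^ j := Nat.pow_le_pow_right (by norm_num) h
      omega
    · have : 2 ^ (j + 1) ≤ 2 ^ i := Nat.pow_le_pow_right (by norm_num) h
      omega

/-- Solutions with separated values and small local quadratic means are trivial. -/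
theorem const_of_local_log {c : ℕ → ℂ} (hc : CInv c)
    (hsep : ∀ n, c (n + 1) ≠ c n → 1 ≤ ‖c (n + 1) - c n‖)
    {α β C : ℝ} (hαβ : α < β)
    (hsum : ∀ r : ℝ, 0 ≤ r → r < 1 → Summable fun n => ‖c (n + 1) - c n‖ * r ^ n)
    (H : ∃ᶠ r : ℝ in 𝓝[<] (1 : ℝ), ∫ θ in α..β, ‖ser (fun n => c (n + 1) - c n) r θ‖ ^ 2 ≤
      C * Real.log (1 / (1 - r))) :
    ∀ n, 1 ≤ n → c n = c 1 := by
  classical
  -- choice of the modulus
  obtain ⟨k, _, hk⟩ := exists_bad_small (ε := (β - α) / (2 * Real.pi)) (by
    have := Real.pi_pos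
    exact div_pos (by linarith) (by positivity))
  set M := 2 ^ k with hM
  have hMpos : 0 < M := by positivity
  have hMr : (0 : ℝ) < M := by exact_mod_cast hMpos
  have hBαβ : (Bad k).card * (2 * Real.pi / M) ≤ β - α := by
    have hpi := Real.pi_pos
    have h1 : ((Bad k).card : ℝ) ≤ (β - α) / (2 * Real.pi) * M := by
      refine hk.le.trans (le_of_eq ?_)
      rw [hM]; push_cast; ring
    calc ((Bad k).card : ℝ) * (2 * Real.pi / M) ≤ ((β - α) / (2 * Real.pi) * M) *
          (2 * Real.pi / M) := mul_le_mul_of_nonneg_right h1 (by positivity)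
      _ = β - α := by field_simp
  obtain ⟨K, hK0, hK⟩ := local_bound hMpos (Bad k) (fun s hs => bad_lt hs) hBαβ
  have hvan : ∀ n, n % M ∉ Bad k → c (n + 1) - c n = 0 := fun n hn => by
    rw [good_eq hc hn, sub_self]
  set A : ℝ := 4 * K * |C| with hA
  have hA0 : 0 ≤ A := by positivity
  -- few jumps up to N, infinitely often
  have hfew : ∀ N0 : ℕ, ∃ N, N0 ≤ N ∧ 1 ≤ N ∧
      (((Finset.range N).filter (fun n => c (n + 1) ≠ c n)).card : ℝ) ≤
        A * Real.log (4 * N) := by
    intro N0
    obtain ⟨r, N, hP, hr0, hr1, hN0, hN1, hrN, hrn⟩ := exists_index H N0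
    refine ⟨N, hN0, hN1, ?_⟩
    have h1 := hK (fun n => c (n + 1) - c n) r hr0 (hsum r hr0 hr1) hvan N
    have hpos : 0 < 1 - r := by linarith
    have hlog : 0 ≤ Real.log (1 / (1 - r)) := by
      apply Real.log_nonneg
      rw [le_div_iff₀ hpos]; linarith
    have h2 : (((Finset.range N).filter (fun n => c (n + 1) ≠ c n)).card : ℝ) ≤
        4 * ∑ n ∈ Finset.range N, ‖c (n + 1) - c n‖ ^ 2 * r ^ (2 * n) := by
      rw [Finset.card_filter]
      push_cast
      rw [Finset.mul_sum]
      apply Finset.sum_le_sum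
      intro n hn
      have h3 := hrn n (Finset.mem_range.mp hn)
      by_cases hcn : c (n + 1) = c n
      · rw [if_neg (by simpa using hcn), hcn]; simp
      · rw [if_pos hcn]
        have h4 := hsep n hcn
        have h5 : 1 ≤ ‖c (n + 1) - c n‖ ^ 2 := one_le_pow₀ h4
        nlinarith
    have h6 : ∫ θ in α..β, ‖ser (fun n => c (n + 1) - c n) r θ‖ ^ 2 ≤
        |C| * Real.log (4 * N) := by
      refine hP.trans ?_
      calc C * Real.log (1 / (1 - r)) ≤ |C| * Real.log (1 / (1 - r)) :=
            mul_le_mul_of_nonneg_right (le_abs_self C) hlog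
        _ ≤ |C| * Real.log (4 * N) := by
            apply mul_le_mul_of_nonneg_left _ (abs_nonneg C)
            exact Real.log_le_log (by positivity) hrN
    calc (((Finset.range N).filter (fun n => c (n + 1) ≠ c n)).card : ℝ) ≤ _ := h2
      _ ≤ 4 * (K * (|C| * Real.log (4 * N))) := by
          gcongr
          exact h1.trans (mul_le_mul_of_nonneg_left h6 hK0)
      _ = _ := by rw [hA]; ring
  -- pass to dyadic blocks
  obtain ⟨V, hV⟩ : ∃ V : ℕ, A + 1 ≤ V := exists_nat_ge (A + 1)
  refine const_of_few_jumps hc (V := V) ?_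
  by_contra hcon
  push Not at hcon
  obtain ⟨J, hJ⟩ := hcon
  obtain ⟨L0, hL0⟩ := exists_nat_gt ((A + 1) * J + 3 * A)
  obtain ⟨N, hN0, hN1, hN⟩ := hfew (2 ^ (L0 + J))
  set L := Nat.log 2 N with hL
  have hL1 : L0 + J ≤ L := (Nat.le_log_iff_pow_le (by norm_num) (by omega)).mpr hN0
  have hL2 : 2 ^ L ≤ N := Nat.pow_log_le_self 2 (by omega)
  have hL3 : N < 2 ^ (L + 1) := Nat.lt_pow_succ_log_self (by norm_num) N
  have h1 : ∑ j ∈ Finset.Ico J L, W c j ≤
      ((Finset.range N).filter (fun n => c (n + 1) ≠ c n)).card := by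
    refine (sum_W_le J L).trans ?_
    have : (Finset.range (2 ^ L)).filter (fun n => c (n + 1) ≠ c n) ⊆
        (Finset.range N).filter (fun n => c (n + 1) ≠ c n) := by
      apply Finset.filter_subset_filter
      exact Finset.range_subset_range.mpr hL2
    refine le_trans (le_of_eq ?_) (Finset.card_le_card this)
    congr
  have h2 : (L - J) * V ≤ ∑ j ∈ Finset.Ico J L, W c j := by
    have h3 : ∑ j ∈ Finset.Ico J L, V ≤ ∑ j ∈ Finset.Ico J L, W c j := by
      apply Finset.sum_le_sum
      intro j hj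
      exact (hJ j (Finset.mem_Ico.mp hj).1).le
    simpa using h3
  have h4 : ((L : ℝ) - J) * V ≤ A * (L + 3) := by
    have h5 : (((L - J) * V : ℕ) : ℝ) ≤ A * Real.log (4 * N) := by
      refine le_trans ?_ hN
      exact_mod_cast h2.trans h1
    have h6 : Real.log (4 * N) ≤ (L : ℝ) + 3 := by
      have h7 : (4 * (N : ℝ)) ≤ 2 ^ (L + 3) := by
        have : 4 * N ≤ 2 ^ (L + 3) := by
          have : 2 ^ (L + 3) = 4 * 2 ^ (L + 1) := by ring
          omega
        exact_mod_cast this
      have hNpos : (0 : ℝ) < N := by exact_mod_cast hN1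
      calc Real.log (4 * N) ≤ Real.log (2 ^ (L + 3)) := Real.log_le_log (by positivity) h7
        _ = ((L : ℝ) + 3) * Real.log 2 := by rw [Real.log_pow]; push_cast; ring
        _ ≤ ((L : ℝ) + 3) * 1 := by
            apply mul_le_mul_of_nonneg_left _ (by positivity)
            have := Real.log_two_lt_d9
            linarith
        _ = _ := mul_one _
    have h8 : ((L - J : ℕ) : ℝ) = (L : ℝ) - J := by
      rw [Nat.cast_sub (by omega)]
    push_cast at h5
    rw [h8] at h5
    exact h5.trans (mul_le_mul_of_nonneg_left h6 hA0)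
  have h9 : (J : ℝ) ≤ L := by exact_mod_cast (by omega : J ≤ L)
  have h10 : ((L : ℝ) - J) * (A + 1) ≤ ((L : ℝ) - J) * V :=
    mul_le_mul_of_nonneg_left hV (by linarith)
  have h11 : (L0 : ℝ) ≤ L := by exact_mod_cast (by omega : L0 ≤ L)
  nlinarith

end Pool.Agent.H397R2
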