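import Mathlib
import Pool.Agent.H55.G.R_seed8.H397R2.Log

namespace Pool.Agent.H397R2

open Pool.Agent.Helper605.CP Filter Topology

/-- the Collatz-invariant function attached to the coefficients of `R` -/
noncomputable def cR (a : ℕ → ℕ) (n : ℕ) : ℂ := if n < 2 then 0 else (a (n - 2) : ℂ)

lemma cR_add_two (a : ℕ → ℕ) (n : ℕ) : cR a (n + 2) = a n := by
  simp [cR]

lemma om_factor' (n : ℕ) : 1 + om ^ n + (om ^ 2) ^ n = if n % 3 = 0 then 3 else 0 := by
  have h := om_factor (n + 2)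
  have h3 := om_cube
  have e1 : om ^ (n + 2 + 1) = om ^ n := by
    rw [show n + 2 + 1 = n + 3 by ring, pow_add, h3, mul_one]
  have e2 : om ^ (2 * (n + 2) + 2) = (om ^ 2) ^ n := by
    rw [show 2 * (n + 2) + 2 = 2 * n + 3 * 2 by ring, pow_add, pow_mul, pow_mul, h3, one_pow,
      mul_one]
  rw [e1, e2] at h
  rw [h]
  by_cases h4 : n % 3 = 0
  · rw [if_pos h4, if_pos (by omega)]
  · rw [if_neg h4, if_neg (by omega)]

lemma summable_R {a : ℕ → ℕ} (ha : ∀ n, a n = 0 ∨ a n = 1) {z : ℂ} (hz : ‖z‖ < 1) :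
    Summable fun n => (a n : ℂ) * z ^ n := by
  refine Summable.of_norm_bounded (g := fun n => ‖z‖ ^ n)
    (summable_geometric_of_lt_one (norm_nonneg _) hz) (fun n => ?_)
  rw [norm_mul, norm_pow]
  have : ‖(a n : ℂ)‖ ≤ 1 := by
    rcases ha n with h | h <;> simp [h]
  calc ‖(a n : ℂ)‖ * ‖z‖ ^ n ≤ 1 * ‖z‖ ^ n := mul_le_mul_of_nonneg_right this (by positivity)
    _ = _ := one_mul _

lemma coeff_R {a : ℕ → ℕ} (ha : ∀ n, a n = 0 ∨ a n = 1) (ha0 : a 0 = 0)
    (hfe : ∀ z : ℂ, ‖z‖ < 1 →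
        3 * z ^ 3 * (∑' n, (a n : ℂ) * (z ^ 3) ^ n)
          - 3 * z ^ 9 * (∑' n, (a n : ℂ) * (z ^ 6) ^ n)
          - (∑' n, (a n : ℂ) * (z ^ 2) ^ n)
          - (∑' n, (a n : ℂ) * (om * z ^ 2) ^ n)
          - (∑' n, (a n : ℂ) * (om ^ 2 * z ^ 2) ^ n) = 0) : CInv (cR a) := by
  -- coefficients of the two sides in `w = z^3`
  set A : ℕ → ℂ := fun k => if k = 0 then 0 else (a (k - 1) : ℂ) with hA
  set B : ℕ → ℂ := fun k => if k % 2 = 0 then (a (3 * (k / 2)) : ℂ) else
    (if k = 1 then 0 else (a (k / 2 - 1) : ℂ)) with hB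
  have key : ∀ n, A n - B n = 0 := by
    apply coeff_zero
    intro w hw0 hw1
    obtain ⟨z, hz⟩ := IsAlgClosed.exists_pow_nat_eq w (n := 3) (by norm_num)
    have hz1 : ‖z‖ < 1 := by
      by_contra hcon
      push Not at hcon
      have : 1 ≤ ‖w‖ := by
        rw [← hz, norm_pow]; exact one_le_pow₀ hcon
      linarith
    have hpow : ∀ k : ℕ, k ≠ 0 → ‖z ^ k‖ < 1 := fun k hk => by
      rw [norm_pow]; exact pow_lt_one₀ (norm_nonneg _) hz1 hk
    have hom : ‖om‖ = 1 := om_prim.norm'_eq_one (by norm_num)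
    have s1 := (summable_R ha (hpow 3 (by norm_num))).hasSum
    have s2 := (summable_R ha (hpow 6 (by norm_num))).hasSum
    have s3 := (summable_R ha (hpow 2 (by norm_num))).hasSum
    have s4 := (summable_R ha (z := om * z ^ 2) (by
      rw [norm_mul, hom, one_mul]; exact hpow 2 (by norm_num))).hasSum
    have s5 := (summable_R ha (z := om ^ 2 * z ^ 2) (by
      rw [norm_mul, norm_pow, hom, one_pow, one_mul]; exact hpow 2 (by norm_num))).hasSum
    have hfz := hfe z hz1
    set R3 := ∑' n, (a n : ℂ) * (z ^ 3) ^ n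
    set R6 := ∑' n, (a n : ℂ) * (z ^ 6) ^ n
    set R2 := ∑' n, (a n : ℂ) * (z ^ 2) ^ n
    set Ro := ∑' n, (a n : ℂ) * (om * z ^ 2) ^ n
    set Rp := ∑' n, (a n : ℂ) * (om ^ 2 * z ^ 2) ^ n
    -- left side
    have sA : HasSum (fun n => A n * w ^ n) (w * R3) := by
      have h1 : HasSum (fun n => A (n + 1) * w ^ (n + 1)) (w * R3) := by
        refine hs_congr (s1.mul_left w) (fun n => ?_)
        simp only [hA, hz]
        rw [if_neg (by omega), Nat.add_sub_cancel]
        ring
      have h2 := (hasSum_nat_add_iff (f := fun n => A n * w ^ n) 1).mp h1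
      simpa [hA] using h2
    have s6 := (s3.add s4).add s5
    have e1 : (fun n => (a n : ℂ) * (z ^ 2) ^ n + (a n : ℂ) * (om * z ^ 2) ^ n +
        (a n : ℂ) * (om ^ 2 * z ^ 2) ^ n) =
        fun n => (a n : ℂ) * (if n % 3 = 0 then 3 else 0) * z ^ (2 * n) := by
      ext n
      rw [← om_factor' n, mul_pow, mul_pow, ← pow_mul]
      ring
    rw [e1] at s6
    have hinj : Function.Injective (fun m : ℕ => 3 * m) := fun a b hab => by
      simp only at hab; omega
    rw [← hinj.hasSum_iff (f := fun n => (a n : ℂ) * (if n % 3 = 0 then (3 : ℂ) else 0) *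
      z ^ (2 * n)) (by
        intro n hn
        rw [if_neg]
        · ring
        · intro h3
          exact hn ⟨n / 3, by simp only; omega⟩)] at s6
    have s7 : HasSum (fun m : ℕ => B (2 * m) * w ^ (2 * m)) ((R2 + Ro + Rp) / 3) := by
      have h8 := s6.mul_left (3 : ℂ)⁻¹
      rw [inv_mul_eq_div] at h8
      refine hs_congr h8 (fun m => ?_)
      simp only [Function.comp, hB]
      rw [if_pos (by omega), if_pos (by omega), show 2 * m / 2 = m by omega, ← hz, ← pow_mul,
        show 2 * (3 * m) = 3 * (2 * m) by ring]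
      field_simp
    have s8 : HasSum (fun m : ℕ => B (2 * m + 1) * w ^ (2 * m + 1)) (z ^ 9 * R6) := by
      have h1 : HasSum (fun m : ℕ => B (2 * (m + 1) + 1) * w ^ (2 * (m + 1) + 1)) (z ^ 9 * R6) := by
        refine hs_congr (s2.mul_left (z ^ 9)) (fun m => ?_)
        simp only [hB]
        rw [if_neg (by omega), if_neg (by omega), show (2 * (m + 1) + 1) / 2 - 1 = m by omega,
          ← hz]
        ring
      have h2 := (hasSum_nat_add_iff (f := fun m : ℕ => B (2 * m + 1) * w ^ (2 * m + 1)) 1).mp h1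
      simpa [hB] using h2
    have s9 := HasSum.even_add_odd (f := fun n => B n * w ^ n) s7 s8
    have s11 := sA.sub s9
    rw [show w * R3 - ((R2 + Ro + Rp) / 3 + z ^ 9 * R6) = 0 by
      rw [← hz]; linear_combination (1 / 3 : ℂ) * hfz] at s11
    refine hs_congr s11 (fun n => ?_)
    ring
  have hAB : ∀ n, A n = B n := fun n => sub_eq_zero.mp (key n)
  constructor
  · intro n
    rcases n with _ | _ | n
    · rfl
    · simp [cR, ha0]
    · have h1 := hAB (2 * (n + 1) + 1)
      simp only [hA, hB] at h1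
      rw [if_neg (by omega), if_neg (by omega), if_neg (by omega),
        show 2 * (n + 1) + 1 - 1 = 2 * (n + 1) by omega,
        show (2 * (n + 1) + 1) / 2 - 1 = n by omega] at h1
      rw [show 2 * (n + 1 + 1) = 2 * (n + 1) + 2 by ring, cR_add_two,
        show n + 1 + 1 = n + 2 by ring, cR_add_two]
      exact h1
  · intro n
    rcases n with _ | n
    · simp [cR, ha0]
    · have h1 := hAB (2 * (n + 1))
      simp only [hA, hB] at h1
      rw [if_neg (by omega), if_pos (by omega), show 2 * (n + 1) / 2 = n + 1 by omega,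
        show 2 * (n + 1) - 1 = 2 * n + 1 by omega] at h1
      rw [cR_add_two, show 2 * (n + 1) + 1 = 2 * n + 1 + 2 by ring, cR_add_two]
      exact h1.symm

lemma hasSum_cR {a : ℕ → ℕ} (ha : ∀ n, a n = 0 ∨ a n = 1) {z : ℂ} (hz : ‖z‖ < 1) :
    HasSum (fun n => (cR a (n + 1) - cR a n) * z ^ n)
      (z * (1 - z) * ∑' n, (a n : ℂ) * z ^ n) := by
  have s := (summable_R ha hz).hasSum
  set S := ∑' n, (a n : ℂ) * z ^ n
  have s1 : HasSum (fun n => cR a (n + 1) * z ^ n) (z * S) := by
    have h1 : HasSum (fun n => cR a (n + 1 + 1) * z ^ (n + 1)) (z * S) := by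
      refine hs_congr (s.mul_left z) (fun n => ?_)
      rw [cR_add_two]; ring
    have h2 := (hasSum_nat_add_iff (f := fun n => cR a (n + 1) * z ^ n) 1).mp h1
    simpa [cR] using h2
  have s2 : HasSum (fun n => cR a n * z ^ n) (z ^ 2 * S) := by
    have h1 : HasSum (fun n => cR a (n + 2) * z ^ (n + 2)) (z ^ 2 * S) := by
      refine hs_congr (s.mul_left (z ^ 2)) (fun n => ?_)
      rw [cR_add_two]; ring
    have h2 := (hasSum_nat_add_iff (f := fun n => cR a n * z ^ n) 2).mp h1
    simpa [cR, Finset.sum_range_succ] using h2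
  have s3 := s1.sub s2
  rw [show z * S - z ^ 2 * S = z * (1 - z) * S by ring] at s3
  exact hs_congr s3 (fun n => by ring)

/-- **Local quadratic means of the 0-1 solutions.** -/
theorem R_local {a : ℕ → ℕ} (ha : ∀ n, a n = 0 ∨ a n = 1) (ha0 : a 0 = 0)
    (hfe : ∀ z : ℂ, ‖z‖ < 1 →
        3 * z ^ 3 * (∑' n, (a n : ℂ) * (z ^ 3) ^ n)
          - 3 * z ^ 9 * (∑' n, (a n : ℂ) * (z ^ 6) ^ n)
          - (∑' n, (a n : ℂ) * (z ^ 2) ^ n)
          - (∑' n, (a n : ℂ) * (om * z ^ 2) ^ n)
          - (∑' n, (a n : ℂ) * (om ^ 2 * z ^ 2) ^ n) = 0)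
    {α β C : ℝ} (hαβ : α < β)
    (H : ∃ᶠ r : ℝ in 𝓝[<] (1 : ℝ), ∫ θ in α..β, ‖∑' n, (a n : ℂ) * (cp r θ) ^ n‖ ^ 2 ≤
      C * Real.log (1 / (1 - r))) : ∀ n, a n = 0 := by
  have hc := coeff_R ha ha0 hfe
  have hsum : ∀ r : ℝ, 0 ≤ r → r < 1 →
      Summable fun n => ‖cR a (n + 1) - cR a n‖ * r ^ n := by
    intro r hr0 hr1
    have h1 := (hasSum_cR ha (z := cp r 0) (by rw [norm_cp hr0]; exact hr1)).summable.norm
    simpa only [norm_term hr0 (fun n => cR a (n + 1) - cR a n)] using h1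
  have hconst := const_of_local_log hc (α := α) (β := β) (C := 4 * C) (by
      intro n hn
      have h01 : ∀ m, cR a m = 0 ∨ cR a m = 1 := by
        intro m
        simp only [cR]
        split_ifs
        · exact Or.inl rfl
        · rcases ha (m - 2) with h | h <;> simp [h]
      rcases h01 n with h1 | h1 <;> rcases h01 (n + 1) with h2 | h2 <;>
        rw [h1, h2] at hn ⊢ <;> simp at hn ⊢) hαβ hsum (by
      have h1 : ∀ᶠ r : ℝ in 𝓝[<] (1 : ℝ), 1 / 2 < r ∧ r < 1 := by
        apply Filter.Eventually.and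
        · exact nhdsWithin_le_nhds (lt_mem_nhds (by norm_num))
        · exact self_mem_nhdsWithin
      refine (H.and_eventually h1).mono ?_
      rintro r ⟨hr, hr0, hr1⟩
      have hr0' : 0 ≤ r := by linarith
      have hcpn : ∀ θ, ‖cp r θ‖ = r := norm_cp hr0'
      have hS : Continuous fun θ => ∑' n, (a n : ℂ) * (cp r θ) ^ n := by
        have : Summable fun n => ‖(a n : ℂ)‖ * r ^ n := by
          have h2 := (summable_R ha (z := cp r 0) (by rw [norm_cp hr0']; exact hr1)).norm
          simpa only [norm_term hr0' (fun n => (a n : ℂ))] using h2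
        exact continuous_ser hr0' this
      have hpt : ∀ θ, ‖ser (fun n => cR a (n + 1) - cR a n) r θ‖ ^ 2 ≤
          4 * ‖∑' n, (a n : ℂ) * (cp r θ) ^ n‖ ^ 2 := by
        intro θ
        have h3 : ser (fun n => cR a (n + 1) - cR a n) r θ =
            cp r θ * (1 - cp r θ) * ∑' n, (a n : ℂ) * (cp r θ) ^ n :=
          (hasSum_ser hr0' (hsum r hr0' hr1) θ).unique
            (hasSum_cR ha (by rw [hcpn]; exact hr1))
        rw [h3, norm_mul, norm_mul, mul_pow, mul_pow, hcpn]
        have h4 : ‖1 - cp r θ‖ ≤ 2 := by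
          refine (norm_sub_le _ _).trans ?_
          rw [norm_one, hcpn]; linarith
        have h5 : r ^ 2 * ‖1 - cp r θ‖ ^ 2 ≤ 4 := by
          have h6 : r ^ 2 ≤ 1 := by nlinarith
          have h7 : ‖1 - cp r θ‖ ^ 2 ≤ 4 := by nlinarith [norm_nonneg (1 - cp r θ)]
          nlinarith [sq_nonneg r, sq_nonneg ‖1 - cp r θ‖]
        exact mul_le_mul_of_nonneg_right h5 (by positivity)
      calc ∫ θ in α..β, ‖ser (fun n => cR a (n + 1) - cR a n) r θ‖ ^ 2
          ≤ ∫ θ in α..β, 4 * ‖∑' n, (a n : ℂ) * (cp r θ) ^ n‖ ^ 2 := by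
            apply intervalIntegral.integral_mono hαβ.le
            · apply Continuous.intervalIntegrable
              have := continuous_ser hr0' (hsum r hr0' hr1)
              fun_prop
            · apply Continuous.intervalIntegrable; fun_prop
            · exact hpt
        _ = 4 * ∫ θ in α..β, ‖∑' n, (a n : ℂ) * (cp r θ) ^ n‖ ^ 2 :=
            intervalIntegral.integral_const_mul _ _
        _ ≤ 4 * (C * Real.log (1 / (1 - r))) := mul_le_mul_of_nonneg_left hr (by norm_num)
        _ = _ := by ring)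
  intro n
  have h1 := hconst (n + 2) (by omega)
  rw [cR_add_two] at h1
  have h2 : cR a 1 = 0 := by simp [cR]
  rw [h2] at h1
  exact_mod_cast h1

end Pool.Agent.H397R2
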